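import Pool.Agent.H925Z.Main

/-!
Almost `Δ`-regressive colourings have monochromatic triples when `2 ^ μ < 2 ^ κ` for all `μ < κ`.
-/

set_option autoImplicit false

universe u

namespace Pool.Agent.Results.MP_9a42a6_lc.AnswerYes

open Cardinal Set Pool.Agent.H925Z

theorem result (κ : Cardinal.{u}) (hκ : ℵ₀ < κ)
    (hexp : ∀ μ < κ, (2 : Cardinal.{u}) ^ μ < 2 ^ κ)
    (c : Sym2 (Seq κ) → Iio κ.ord) (hc : AlmostRegressive c) :
    ∃ Y : Set (Seq κ), Y.encard = 3 ∧ Monochromatic c Y := by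
  obtain ⟨Y, ⟨k, hk⟩, hY, -⟩ := almost_mono hκ hexp c hc ℵ₀ hκ
  obtain ⟨Z, hZ, hZ3⟩ := exists_subset_encard_eq (k := 3) (s := Y) (by rw [hY.encard_eq]; exact le_top)
  exact ⟨Z, hZ3, k, fun x hx y hy => hk x (hZ hx) y (hZ hy)⟩

end Pool.Agent.Results.MP_9a42a6_lc.AnswerYes
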